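import Mathlib

/-!
# One-sided tridiagonal (Hessenberg-type) pairs: conclusion (c) fails

On `V = K⁵` with basis `u₀, …, u₄` let `A u₀ = u₁`, `A u₁ = u₁ + u₃`, `A u₂ = u₂ + u₄`,
`A u₃ = 2 u₃`, `A u₄ = 2 u₄` and `A* u₀ = 0`, `A* u₁ = u₁ + u₀`, `A* u₂ = u₂`,
`A* u₃ = 2 u₃ + u₂`, `A* u₄ = 2 u₄ + u₁`.  The eigenspaces of `A` have dimensions `2, 2, 1` (for
the eigenvalues `2, 1, 0`), those of `A*` have dimensions `1, 2, 2` (for `0, 1, 2`).
-/

set_option autoImplicit false
set_option linter.unnecessarySeqFocus false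
set_option linter.unusedSectionVars false

namespace Pool.Agent.Results.MP_d2cf4a_al.DimensionsFail

/-- `A, A*` is a pair satisfying conditions 1-4 of the problem; the ordering `V_0, …, V_d` of the
eigenspaces of `A` is given by the ordering `θ 0, …, θ d` of its eigenvalues, and the ordering
`V*_0, …, V*_δ` of the eigenspaces of `A*` by the ordering `θs 0, …, θs δ` of its eigenvalues. -/
structure IsHessenbergPair {K V : Type*} [Field K] [AddCommGroup V] [Module K V]
    (A As : Module.End K V) {d δ : ℕ} (θ : Fin (d + 1) → K) (θs : Fin (δ + 1) → K) : Prop where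
  /-- the `θ i` are distinct -/
  inj : Function.Injective θ
  /-- the `θs i` are distinct -/
  injs : Function.Injective θs
  /-- each `θ i` is an eigenvalue of `A` -/
  eig : ∀ i, A.HasEigenvalue (θ i)
  /-- each `θs i` is an eigenvalue of `A*` -/
  eigs : ∀ i, As.HasEigenvalue (θs i)
  /-- `A` is diagonalizable, with eigenvalues the `θ i` -/
  top : ⨆ i, A.eigenspace (θ i) = ⊤
  /-- `A*` is diagonalizable, with eigenvalues the `θs i` -/
  tops : ⨆ i, As.eigenspace (θs i) = ⊤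
  /-- `A* V_i ⊆ V_0 + ⋯ + V_{i+1}` -/
  hess : ∀ i, ∀ v ∈ A.eigenspace (θ i),
    As v ∈ ⨆ (j : Fin (d + 1)) (_ : (j : ℕ) ≤ (i : ℕ) + 1), A.eigenspace (θ j)
  /-- `A V*_i ⊆ V*_0 + ⋯ + V*_{i+1}` -/
  hesss : ∀ i, ∀ v ∈ As.eigenspace (θs i),
    A v ∈ ⨆ (j : Fin (δ + 1)) (_ : (j : ℕ) ≤ (i : ℕ) + 1), As.eigenspace (θs j)
  /-- `V ≠ 0` -/
  nontrivial : Nontrivial V
  /-- the only subspaces invariant under `A` and `A*` are `0` and `V` -/
  irred : ∀ W : Submodule K V, (∀ w ∈ W, A w ∈ W) → (∀ w ∈ W, As w ∈ W) → W = ⊥ ∨ W = ⊤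

section Example

variable {K : Type*} [Field K]

/-- The matrix of `A`. -/
def matA : Matrix (Fin 5) (Fin 5) K :=
  !![0, 0, 0, 0, 0;
    1, 1, 0, 0, 0;
    0, 0, 1, 0, 0;
    0, 1, 0, 2, 0;
    0, 0, 1, 0, 2]

/-- The matrix of `A*`. -/
def matAs : Matrix (Fin 5) (Fin 5) K :=
  !![0, 1, 0, 0, 0;
    0, 1, 0, 0, 1;
    0, 0, 1, 1, 0;
    0, 0, 0, 2, 0;
    0, 0, 0, 0, 2]

/-- The map `A`. -/
def endA : Module.End K (Fin 5 → K) := matA.mulVecLin

/-- The map `A*`. -/
def endAs : Module.End K (Fin 5 → K) := matAs.mulVecLin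

lemma matA_apply (v : Fin 5 → K) : (endA (K := K)) v =
    ![0, v 0 + v 1, v 2, v 1 + 2 * v 3, v 2 + 2 * v 4] := by
  ext i
  fin_cases i <;> simp [endA, matA, Matrix.mulVec, dotProduct, Fin.sum_univ_five]

lemma matAs_apply (v : Fin 5 → K) : (endAs (K := K)) v =
    ![v 1, v 1 + v 4, v 2 + v 3, 2 * v 3, 2 * v 4] := by
  ext i
  fin_cases i <;> simp [endAs, matAs, Matrix.mulVec, dotProduct, Fin.sum_univ_five]

lemma mem_eigA {μ : K} {v : Fin 5 → K} : v ∈ (endA (K := K)).eigenspace μ ↔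
    0 = μ * v 0 ∧ v 0 + v 1 = μ * v 1 ∧ v 2 = μ * v 2 ∧ v 1 + 2 * v 3 = μ * v 3 ∧
      v 2 + 2 * v 4 = μ * v 4 := by
  rw [Module.End.mem_eigenspace_iff, matA_apply]
  constructor
  · intro h
    exact ⟨congrFun h 0, congrFun h 1, congrFun h 2, congrFun h 3, congrFun h 4⟩
  · rintro ⟨h0, h1, h2, h3, h4⟩
    ext i
    fin_cases i
    exacts [h0, h1, h2, h3, h4]

lemma mem_eigAs {μ : K} {v : Fin 5 → K} : v ∈ (endAs (K := K)).eigenspace μ ↔
    v 1 = μ * v 0 ∧ v 1 + v 4 = μ * v 1 ∧ v 2 + v 3 = μ * v 2 ∧ 2 * v 3 = μ * v 3 ∧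
      2 * v 4 = μ * v 4 := by
  rw [Module.End.mem_eigenspace_iff, matAs_apply]
  constructor
  · intro h
    exact ⟨congrFun h 0, congrFun h 1, congrFun h 2, congrFun h 3, congrFun h 4⟩
  · rintro ⟨h0, h1, h2, h3, h4⟩
    ext i
    fin_cases i
    exacts [h0, h1, h2, h3, h4]

variable [CharZero K]

/-- the eigenvalues of `A` -/
def th : Fin 3 → K := ![2, 1, 0]

/-- the eigenvalues of `A*` -/
def ths : Fin 3 → K := ![0, 1, 2]

lemma decomp (v : Fin 5 → K) : v = ![0, 0, 0, v 3 + v 1 + v 0 / 2, v 4 + v 2] +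
    ![0, v 1 + v 0, v 2, -(v 1 + v 0), -v 2] + ![v 0, -v 0, 0, v 0 / 2, 0] := by
  ext i
  fin_cases i <;> simp <;> ring

lemma decomps (v : Fin 5 → K) : v = ![v 0 - v 1 + v 4 / 2, 0, 0, 0, 0] +
    ![v 1 - v 4, v 1 - v 4, v 2 - v 3, 0, 0] + ![v 4 / 2, v 4, v 3, v 3, v 4] := by
  ext i
  fin_cases i <;> simp <;> ring

lemma mem_sum {v : Fin 5 → K} {n : ℕ} (h : 2 ≤ n ∨ (v 0 = 0 ∧ 1 ≤ n)) :
    v ∈ ⨆ (j : Fin 3) (_ : (j : ℕ) ≤ n), (endA (K := K)).eigenspace (th j) := by
  have m0 : ![0, 0, 0, v 3 + v 1 + v 0 / 2, v 4 + v 2] ∈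
      (endA (K := K)).eigenspace (th 0) := by
    rw [mem_eigA]; simp [th]
  have m1 : ![0, v 1 + v 0, v 2, -(v 1 + v 0), -v 2] ∈
      (endA (K := K)).eigenspace (th 1) := by
    rw [mem_eigA]; simp [th]; ring_nf; simp
  have m2 : ![v 0, -v 0, 0, v 0 / 2, 0] ∈ (endA (K := K)).eigenspace (th 2) := by
    rw [mem_eigA]; simp [th]; ring
  have hle : ∀ j : Fin 3, (j : ℕ) ≤ n → (endA (K := K)).eigenspace (th j) ≤
      ⨆ (j : Fin 3) (_ : (j : ℕ) ≤ n), (endA (K := K)).eigenspace (th j) :=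
    fun j hj => le_iSup₂_of_le j hj le_rfl
  rw [decomp v]
  refine Submodule.add_mem _ (Submodule.add_mem _ (hle 0 (by simp) m0)
    (hle 1 (by rcases h with h | h <;> simp <;> omega) m1)) ?_
  rcases h with h | ⟨h, -⟩
  · exact hle 2 (by simpa using h) m2
  · have : ![v 0, -v 0, 0, v 0 / 2, 0] = (0 : Fin 5 → K) := by
      ext i; fin_cases i <;> simp [h]
    rw [this]
    exact Submodule.zero_mem _

lemma mem_sums {v : Fin 5 → K} {n : ℕ} (h : 2 ≤ n ∨ (v 3 = 0 ∧ v 4 = 0 ∧ 1 ≤ n)) :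
    v ∈ ⨆ (j : Fin 3) (_ : (j : ℕ) ≤ n), (endAs (K := K)).eigenspace (ths j) := by
  have m0 : ![v 0 - v 1 + v 4 / 2, 0, 0, 0, 0] ∈
      (endAs (K := K)).eigenspace (ths 0) := by
    rw [mem_eigAs]; simp [ths]
  have m1 : ![v 1 - v 4, v 1 - v 4, v 2 - v 3, 0, 0] ∈
      (endAs (K := K)).eigenspace (ths 1) := by
    rw [mem_eigAs]; simp [ths]
  have m2 : ![v 4 / 2, v 4, v 3, v 3, v 4] ∈ (endAs (K := K)).eigenspace (ths 2) := by
    rw [mem_eigAs]; simp [ths]; refine ⟨?_, ?_, ?_⟩ <;> ring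
  have hle : ∀ j : Fin 3, (j : ℕ) ≤ n → (endAs (K := K)).eigenspace (ths j) ≤
      ⨆ (j : Fin 3) (_ : (j : ℕ) ≤ n), (endAs (K := K)).eigenspace (ths j) :=
    fun j hj => le_iSup₂_of_le j hj le_rfl
  rw [decomps v]
  refine Submodule.add_mem _ (Submodule.add_mem _ (hle 0 (by simp) m0)
    (hle 1 (by rcases h with h | h <;> simp <;> omega) m1)) ?_
  rcases h with h | ⟨h3, h4, -⟩
  · exact hle 2 (by simpa using h) m2
  · have : ![v 4 / 2, v 4, v 3, v 3, v 4] = (0 : Fin 5 → K) := by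
      ext i; fin_cases i <;> simp [h3, h4]
    rw [this]
    exact Submodule.zero_mem _

lemma irreducible (W : Submodule K (Fin 5 → K)) (hA : ∀ w ∈ W, endA w ∈ W)
    (hAs : ∀ w ∈ W, endAs w ∈ W) : W = ⊥ ∨ W = ⊤ := by
  by_cases h0 : ![1, 0, 0, 0, 0] ∈ W
  · right
    have h1 : ![0, 1, 0, 0, 0] ∈ W := by
      have := hA _ h0
      rw [matA_apply] at this
      simpa using this
    have h3 : ![0, 0, 0, 1, 0] ∈ W := by
      have := W.sub_mem (hA _ h1) h1
      rw [matA_apply] at this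
      convert this using 1
      ext i
      fin_cases i <;> simp
    have h2 : ![0, 0, 1, 0, 0] ∈ W := by
      have := W.sub_mem (hAs _ h3) (W.smul_mem 2 h3)
      rw [matAs_apply] at this
      convert this using 1
      ext i
      fin_cases i <;> simp
    have h4 : ![0, 0, 0, 0, 1] ∈ W := by
      have := W.sub_mem (hA _ h2) h2
      rw [matA_apply] at this
      convert this using 1
      ext i
      fin_cases i <;> simp
    rw [eq_top_iff]
    intro v _
    have hv : v = v 0 • ![1, 0, 0, 0, 0] + v 1 • ![0, 1, 0, 0, 0] + v 2 • ![0, 0, 1, 0, 0] +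
        v 3 • ![0, 0, 0, 1, 0] + v 4 • ![0, 0, 0, 0, 1] := by
      ext i
      fin_cases i <;> simp
    rw [hv]
    exact W.add_mem (W.add_mem (W.add_mem (W.add_mem (W.smul_mem _ h0) (W.smul_mem _ h1))
      (W.smul_mem _ h2)) (W.smul_mem _ h3)) (W.smul_mem _ h4)
  · left
    -- the functional `φ` vanishes on `W`
    have hφ : ∀ w ∈ W, w 0 - w 1 + w 4 / 2 = 0 := by
      intro w hw
      by_contra hne
      apply h0
      have h1 := hAs _ hw
      have h2 := hAs _ h1
      have h3 := W.add_mem (W.sub_mem h2 (W.smul_mem 3 h1)) (W.smul_mem 2 hw)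
      have h4 : endAs (endAs w) - (3 : K) • endAs w + (2 : K) • w =
          ![2 * (w 0 - w 1 + w 4 / 2), 0, 0, 0, 0] := by
        rw [matAs_apply, matAs_apply]
        ext i
        fin_cases i <;> simp <;> ring
      rw [h4] at h3
      have h5 := W.smul_mem (2 * (w 0 - w 1 + w 4 / 2))⁻¹ h3
      have h6 : (2 * (w 0 - w 1 + w 4 / 2))⁻¹ • ![2 * (w 0 - w 1 + w 4 / 2), 0, 0, 0, 0] =
          (![1, 0, 0, 0, 0] : Fin 5 → K) := by
        have h7 : 2 * (w 0 - w 1 + w 4 / 2) ≠ 0 := mul_ne_zero two_ne_zero hne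
        ext i
        fin_cases i
        · exact inv_mul_cancel₀ h7
        all_goals simp
      rwa [h6] at h5
    rw [eq_bot_iff]
    intro w hw
    have e1 := hφ _ hw
    have e2 := hφ _ (hA _ hw)
    have e3 := hφ _ (hA _ (hA _ hw))
    have e4 := hφ _ (hA _ (hAs _ hw))
    have e5 := hφ _ (hA _ (hAs _ (hA _ hw)))
    simp only [matA_apply, matAs_apply] at e2 e3 e4 e5
    simp at e2 e3 e4 e5
    have f0 : w 0 = 0 := by linear_combination e1 / 2 - 3 / 4 * e2 + 1 / 4 * e3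
    have f1 : w 1 = 0 := by
      linear_combination e1 - 1 / 6 * e2 - 1 / 6 * e3 - 4 / 3 * e4 + 2 / 3 * e5
    have f2 : w 2 = 0 := by
      linear_combination -3 * e1 - 13 / 6 * e2 + 11 / 6 * e3 + 8 / 3 * e4 - 4 / 3 * e5
    have f3 : w 3 = 0 := by
      linear_combination e1 - 5 / 6 * e2 - 5 / 6 * e3 - 2 / 3 * e4 + 4 / 3 * e5
    have f4 : w 4 = 0 := by
      linear_combination 3 * e1 + 7 / 6 * e2 - 5 / 6 * e3 - 8 / 3 * e4 + 4 / 3 * e5
    rw [Submodule.mem_bot]
    ext i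
    fin_cases i
    exacts [f0, f1, f2, f3, f4]

lemma isPair : IsHessenbergPair (endA (K := K)) endAs th ths where
  inj := by
    intro i j h
    fin_cases i <;> fin_cases j <;> simp [th] at h ⊢
  injs := by
    intro i j h
    fin_cases i <;> fin_cases j <;> simp [ths] at h ⊢
  eig := by
    intro i
    have key : ∀ (μ : K) (v : Fin 5 → K), v ∈ (endA (K := K)).eigenspace μ → v ≠ 0 →
        (endA (K := K)).HasEigenvalue μ := fun μ v hv hv0 =>
      Module.End.hasEigenvalue_of_hasEigenvector ⟨hv, hv0⟩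
    fin_cases i
    · refine key _ ![0, 0, 0, 1, 0] (by rw [mem_eigA]; simp [th]) fun h => ?_
      have := congrFun h 3
      simp at this
    · refine key _ ![0, 1, 0, -1, 0] (by rw [mem_eigA]; simp [th]; norm_num) fun h => ?_
      have := congrFun h 1
      simp at this
    · refine key _ ![1, -1, 0, 1 / 2, 0] (by rw [mem_eigA]; simp [th]) fun h => ?_
      have := congrFun h 0
      simp at this
  eigs := by
    intro i
    have key : ∀ (μ : K) (v : Fin 5 → K), v ∈ (endAs (K := K)).eigenspace μ → v ≠ 0 →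
        (endAs (K := K)).HasEigenvalue μ := fun μ v hv hv0 =>
      Module.End.hasEigenvalue_of_hasEigenvector ⟨hv, hv0⟩
    fin_cases i
    · refine key _ ![1, 0, 0, 0, 0] (by rw [mem_eigAs]; simp [ths]) fun h => ?_
      have := congrFun h 0
      simp at this
    · refine key _ ![1, 1, 0, 0, 0] (by rw [mem_eigAs]; simp [ths]) fun h => ?_
      have := congrFun h 0
      simp at this
    · refine key _ ![0, 0, 1, 1, 0] (by rw [mem_eigAs]; simp [ths]; norm_num) fun h => ?_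
      have := congrFun h 2
      simp at this
  top := by
    rw [eq_top_iff]
    intro v _
    have := mem_sum (v := v) (n := 2) (Or.inl le_rfl)
    refine (iSup_mono fun j => ?_ : (⨆ (j : Fin 3) (_ : (j : ℕ) ≤ 2),
      (endA (K := K)).eigenspace (th j)) ≤ ⨆ j, (endA (K := K)).eigenspace (th j)) this
    exact iSup_le fun _ => le_rfl
  tops := by
    rw [eq_top_iff]
    intro v _
    have := mem_sums (v := v) (n := 2) (Or.inl le_rfl)
    refine (iSup_mono fun j => ?_ : (⨆ (j : Fin 3) (_ : (j : ℕ) ≤ 2),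
      (endAs (K := K)).eigenspace (ths j)) ≤ ⨆ j, (endAs (K := K)).eigenspace (ths j)) this
    exact iSup_le fun _ => le_rfl
  hess := by
    intro i v hv
    apply mem_sum
    fin_cases i
    · right
      rw [mem_eigA] at hv
      simp only [th, Fin.zero_eta, Matrix.cons_val_zero] at hv
      obtain ⟨h0, h1, h2, h3, h4⟩ := hv
      have f0 : v 0 = 0 := by linear_combination -h0 / 2
      rw [matAs_apply]
      refine ⟨?_, le_rfl⟩
      change v 1 = 0
      linear_combination f0 - h1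
    · left; simp
    · left; simp
  hesss := by
    intro i v hv
    apply mem_sums
    fin_cases i
    · right
      rw [mem_eigAs] at hv
      simp only [ths, Fin.zero_eta, Matrix.cons_val_zero] at hv
      obtain ⟨h0, h1, h2, h3, h4⟩ := hv
      rw [matA_apply]
      refine ⟨?_, ?_, le_rfl⟩
      · change v 1 + 2 * v 3 = 0
        linear_combination h0 + h3
      · change v 2 + 2 * v 4 = 0
        linear_combination h2 + h4 - h3 / 2
    · left; simp
    · left; simp
  nontrivial := inferInstance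
  irred := irreducible

lemma finrank_ne : Module.finrank K ((endA (K := K)).eigenspace (th 0)) ≠
    Module.finrank K ((endAs (K := K)).eigenspace (ths 0)) := by
  have h1 : Module.finrank K ((endAs (K := K)).eigenspace (ths 0)) = 1 := by
    rw [finrank_eq_one_iff']
    refine ⟨⟨![1, 0, 0, 0, 0], by rw [mem_eigAs]; simp [ths]⟩, fun h => ?_, fun w => ?_⟩
    · have := congrFun (congrArg Subtype.val h) 0
      simp at this
    · obtain ⟨w, hw⟩ := w
      rw [mem_eigAs] at hw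
      simp only [ths, Matrix.cons_val_zero] at hw
      obtain ⟨h0, h1, h2, h3, h4⟩ := hw
      refine ⟨w 0, Subtype.ext ?_⟩
      have f1 : w 1 = 0 := by linear_combination h0
      have f3 : w 3 = 0 := by linear_combination h3 / 2
      have f4 : w 4 = 0 := by linear_combination h4 / 2
      have f2 : w 2 = 0 := by linear_combination h2 - f3
      ext i
      fin_cases i <;> simp [f1, f2, f3, f4]
  rw [h1]
  intro h
  rw [finrank_eq_one_iff'] at h
  obtain ⟨v, -, hv⟩ := h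
  obtain ⟨a, ha⟩ := hv ⟨![0, 0, 0, 1, 0], by rw [mem_eigA]; simp [th]⟩
  obtain ⟨b, hb⟩ := hv ⟨![0, 0, 0, 0, 1], by rw [mem_eigA]; simp [th]⟩
  have a3 := congrFun (congrArg Subtype.val ha) 3
  have a4 := congrFun (congrArg Subtype.val ha) 4
  have b3 := congrFun (congrArg Subtype.val hb) 3
  have b4 := congrFun (congrArg Subtype.val hb) 4
  simp at a3 a4 b3 b4
  rcases b3 with h | h
  · rw [h, zero_mul] at b4
    exact zero_ne_one b4
  · rw [h, mul_zero] at a3
    exact zero_ne_one a3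

end Example

/-- Over every field of characteristic `0` there is a pair `A, A*` satisfying conditions 1-4 on
`K⁵`, with `d = δ = 2`, such that `dim V_0 ≠ dim V*_0`. -/
theorem result (K : Type*) [Field K] [CharZero K] :
    ∃ (A As : Module.End K (Fin 5 → K)) (θ θs : Fin (2 + 1) → K),
      IsHessenbergPair A As θ θs ∧
        Module.finrank K (A.eigenspace (θ 0)) ≠ Module.finrank K (As.eigenspace (θs 0)) :=
  ⟨endA, endAs, th, ths, isPair, finrank_ne⟩

end Pool.Agent.Results.MP_d2cf4a_al.DimensionsFail
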